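import Pool.Agent.K1H40.CT.Stm

/-!
# Project CT (helper40), piece CT-VAN: `S_POW → S_TOP2 → S_TOP3 → S_VAN`
-/

set_option autoImplicit false

namespace Pool.Agent.K1H89.CT

open Pool.Agent.K1H40.CT

universe u w

/-- the odd elements of degree one of an exterior algebra -/
theorem odd_range (R : Type u) [CommRing R] (M : Type w) [AddCommGroup M] [Module R M] :
    OddSet (LinearMap.range (ExteriorAlgebra.ι R : M →ₗ[R] ExteriorAlgebra R M) :
      Set (ExteriorAlgebra R M)) := by
  have anti : ∀ a b : M, ExteriorAlgebra.ι R a * ExteriorAlgebra.ι R b =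
      -(ExteriorAlgebra.ι R b * ExteriorAlgebra.ι R a) := fun a b =>
    eq_neg_of_add_eq_zero_left (ExteriorAlgebra.ι_add_mul_swap a b)
  refine ⟨?_, ?_, ?_⟩
  · rintro x ⟨a, rfl⟩ y ⟨b, rfl⟩
    exact anti a b
  · rintro x ⟨a, rfl⟩
    exact ExteriorAlgebra.ι_sq_zero a
  · rintro x ⟨a, rfl⟩ y ⟨b, rfl⟩ w
    induction w using ExteriorAlgebra.induction with
    | algebraMap r => exact (Algebra.commutes r _).symm
    | ι m =>
      rw [mul_assoc, anti b m, mul_neg, ← mul_assoc, anti a m, neg_mul, neg_neg, mul_assoc]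
    | mul p q hp hq => rw [← mul_assoc, hp, mul_assoc, hq, mul_assoc]
    | add p q hp hq => rw [mul_add, hp, hq, add_mul]

theorem t_VAN : S_POW.{u, u} → S_TOP2.{u} → S_TOP3.{u} → S_VAN.{u} := by
  intro hpow htop2 htop3 R _ _ n e z v hrk hone
  set lam : Fin n → R := fun i => ∑ a, ∑ b, ∑ d, z a b d i * (v a * v b * v d) with hlam
  have h1 : ∑ i, lam i * v i = 1 := by
    rw [← hone]
    have h2 : ∀ i, lam i * v i = ∑ a, ∑ b, ∑ d, z a b d i * (v a * v b * v d * v i) := by
      intro i
      rw [hlam]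
      simp only [Finset.sum_mul]
      refine Finset.sum_congr rfl fun a _ => Finset.sum_congr rfl fun b _ =>
        Finset.sum_congr rfl fun d _ => ?_
      ring
    simp only [h2]
    rw [Finset.sum_comm]
    refine Finset.sum_congr rfl fun a _ => ?_
    rw [Finset.sum_comm]
    refine Finset.sum_congr rfl fun b _ => ?_
    rw [Finset.sum_comm]
  set O : Submodule R (Ex R) :=
    LinearMap.range (ExteriorAlgebra.ι R : (Fin 4 × Fin 8 → R) →ₗ[R] Ex R) with hO
  have hps : ∀ c j, ps R c j ∈ O := fun c j => ⟨_, rfl⟩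
  have hTh : ∀ c i, Th R e c i ∈ O := fun c i => by
    refine Submodule.sum_mem _ fun j _ => ?_
    split_ifs
    · exact hps c _
    · exact O.zero_mem
  set eta : Fin 4 → Ex R := fun c => ∑ i, lam i • Th R e c i with heta
  have hetaO : ∀ c, eta c ∈ O := fun c =>
    Submodule.sum_mem _ fun i _ => O.smul_mem _ (hTh c i)
  set t : Fin 4 → Fin n → Ex R := fun c i => Th R e c i - v i • eta c with ht
  have hcore : Core z v (O : Set (Ex R)) t (fun c => ps R c (Fin.last 7)) := by
    refine ⟨hrk, hone, odd_range R _, fun c i => O.sub_mem (hTh c i) (O.smul_mem _ (hetaO c)),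
      fun s => hps s _, fun c => ?_⟩
    change ∑ i, lam i • (Th R e c i - v i • eta c) = 0
    simp only [smul_sub, smul_smul, Finset.sum_sub_distrib, ← Finset.sum_smul]
    rw [h1, one_smul]
    exact sub_self _
  have h3 := hpow R n (Ex R) z v (O : Set (Ex R)) t (fun c => ps R c (Fin.last 7)) eta hcore hetaO
  have h4 : ∀ c, (fun i => v i • eta c + t c i) = Th R e c := fun c => by
    funext i
    exact add_sub_cancel _ _
  rw [h4, h4, h4, h4, htop2 R n e z, mul_smul_comm] at h3
  exact htop3 R (hd e z) h3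

end Pool.Agent.K1H89.CT
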